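import Pool.Agent.MWKP.Stmts

/-!
# Row LVT of squad MWKP (helper34): a violation of the next level gives the bits
-/

set_option autoImplicit false

namespace Pool.Agent.MWKP.H34

open Pool.Agent.Helper14_MV Pool.Agent.Helper2_MV Pool.Agent.MWK Pool.Agent.MWKP

/-- row LVT -/
theorem lvt (lvx : LvxStmt) (lvc : LvcStmt) (lvn : LvnStmt) (dgn : DgnStmt) : LvtStmt := by
  intro n θ hK u v huv
  have h00 : ¬ AgL 0 0 u v → Dg n θ := (dgn n θ hK u v huv).1
  refine ⟨h00, ?_⟩
  -- inside a level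
  have hP : ∀ m, (¬ AgL m 0 u v → Lv n m 0 θ) → ∀ j, j ≤ m + 1 → ¬ AgL m (j + 1) u v →
      Lv n m j θ := by
    intro m hQ j
    induction j with
    | zero =>
      intro hj h1
      by_cases h : AgL m 0 u v
      · exact (lvx n θ hK m u v huv).1 0 hj h h1
      · exact hQ h
    | succ j ih =>
      intro hj h1
      by_cases h : AgL m (j + 1) u v
      · exact (lvx n θ hK m u v huv).1 (j + 1) hj h h1
      · exact lvc n θ hK m j m (j + 1) (by omega) (by omega) (Or.inr ⟨rfl, by omega⟩)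
          (ih (by omega) h)
  have hE : ∀ m, (¬ AgL m 0 u v → Lv n m 0 θ) → ¬ AgL (m + 1) 0 u v → Lv n m (m + 2) θ := by
    intro m hQ h1
    by_cases h : AgL m (m + 2) u v
    · exact (lvx n θ hK m u v huv).2 h h1
    · exact lvc n θ hK m (m + 1) m (m + 2) (by omega) (by omega) (Or.inr ⟨rfl, by omega⟩)
        (hP m hQ (m + 1) le_rfl h)
  have hQ : ∀ m, ¬ AgL m 0 u v → Lv n m 0 θ := by
    intro m
    induction m with
    | zero => exact fun h => (lvn n θ hK 0).2.2.2 (h00 h)
    | succ m ih =>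
      intro h
      exact lvc n θ hK m (m + 2) (m + 1) 0 (by omega) (by omega) (Or.inl (by omega)) (hE m ih h)
  exact fun m => ⟨fun j hj => hP m (hQ m) j hj, hE m (hQ m)⟩

end Pool.Agent.MWKP.H34
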